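import Pool.Agent.N733.TG.K
import Pool.Agent.Results.MP_5dd4bb_nt.SparseModuli

/-!
# The lower bound for the variance of primes in progressions, for all moduli near values of multiplicative functions

`G(X, k)` is the variance of the problem. Let `f` be a positive multiplicative function of at most polynomial growth with
`f p ≤ M p` for the large primes `p`, with different values at different large primes; for example Euler's function or the
sum of the divisors. For every `ε > 0` there is `η > 0` such that for every function `g` with steps bounded below by a positive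
constant and growth at most `v ^ d` (for example `α v ^ d`), `d (1 - η) + κ < 1`, and for all `m ≤ N` but `N / (log N) ^ U`
EVERY modulus `k ≥ 1` with `|k - g (f m)| ≤ f(m) ^ κ` satisfies `G(X, k) ≥ X (log k - 1/2 log X - ε log X)` for ALL real
`X ≥ k` at once. For `g v = v` and `κ = 0` these are the moduli `φ(m) - 1`, `φ(m)`, `φ(m) + 1`. The values of `f` are in
general taken with very large multiplicities, and so this does not follow from the size of the exceptional set, which may
have `x ^ (1 - η)` elements.

The size of the exceptional set is bounded by the starting theorem `AlmostAllModuli` of this problem (the form used here is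
the lemma `count` of the starting file `SparseModuli`), the values of `f` are treated by the tool `N733/TG` of helper733.
-/

set_option autoImplicit false

namespace Pool.Agent.Results.MP_5dd4bb_nt.MultiplicativeValues

open Finset
open Pool.Agent.N733.TG (LM Expanding lm_totient lm_sigma keep_good_nat expanding_pow)
open Pool.Agent.Results.MP_5dd4bb_nt.SparseModuli (Good count)

/-- **The lower bound for the variance for all moduli near the values of multiplicative functions.** For every `ε > 0` there
is `0 < η ≤ 1` with the following property. Let `f` be multiplicative and positive, of at most polynomial growth, with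
`f p ≤ M p` at the large primes, and injective there. Let `g` have steps `≥ a > 0` and growth at most `v ^ d`. Let `κ ≥ 0` and
`d (1 - η) + κ < 1`. For every `U` and all large `N`, for all `m ≤ N` but `N / (log N) ^ U`, EVERY modulus `k ≥ 1` with
`|k - g (f m)| ≤ f(m) ^ κ` satisfies `G(X, k) ≥ X (log k - 1/2 log X - ε log X)` for all real `X ≥ k`. Euler's function and
the sum of the divisors are examples of such functions `f`, and `α v ^ d` with `α > 0`, `d ≥ 1` is an example of `g`. -/
theorem result :
    (∀ ε : ℝ, 0 < ε → ∃ η : ℝ, 0 < η ∧ η ≤ 1 ∧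
      ∀ f : ℕ → ℕ, LM f → ∀ (g : ℕ → ℝ) (d : ℝ), Expanding g d → ∀ κ : ℝ, 0 ≤ κ → d * (1 - η) + κ < 1 →
      ∀ U : ℕ, ∃ N₀ : ℕ, ∀ N : ℕ, N₀ ≤ N →
      ({m : ℕ | 1 ≤ m ∧ m ≤ N ∧ ¬ ∀ k : ℕ, 1 ≤ k → |(k : ℝ) - g (f m)| ≤ (f m : ℝ) ^ κ → Good ε k}.ncard : ℝ) ≤
        N / Real.log N ^ U) ∧
    (LM Nat.totient ∧ LM (fun m => ∑ d ∈ m.divisors, d)) ∧
    ∀ α d : ℝ, 0 < α → 1 ≤ d → Expanding (fun v => α * (v : ℝ) ^ d) d := by
  refine ⟨fun ε hε => ?_, ⟨lm_totient, lm_sigma⟩, fun α d hα hd => expanding_pow hα hd⟩
  obtain ⟨η, hη, C, hC⟩ := count ε hε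
  refine ⟨min η 1, lt_min hη one_pos, min_le_right _ _, fun f hf g d hg κ hκ h1 U => ?_⟩
  obtain ⟨η', hη'⟩ : ∃ η', η' = min η 1 := ⟨_, rfl⟩
  rw [← hη'] at h1
  have hle : η' ≤ η := by rw [hη']; exact min_le_left _ _
  have hle1 : η' ≤ 1 := by rw [hη']; exact min_le_right _ _
  obtain ⟨N₀, hN₀⟩ := keep_good_nat (fun _ => True) (Good ε) hf hg (s := 1 - η') (κ := κ) (by linarith) hκ h1
    (fun δ hδ => by
      refine ⟨|C|, fun X hX => ?_⟩
      have hX1 : (1 : ℝ) ≤ X := by exact_mod_cast hX
      classical
      have hsub : {t : ℕ | 1 ≤ t ∧ t ≤ X ∧ True ∧ ¬ Good ε t} ⊆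
          (((Ioc 0 X).filter (fun k => k ∈ SparseModuli.Bad ε) : Finset ℕ) : Set ℕ) := by
        rintro t ⟨h1, h2, _, h3⟩
        rw [mem_coe, mem_filter, mem_Ioc]
        exact ⟨⟨h1, h2⟩, SparseModuli.not_good h3⟩
      have h2 := Set.ncard_le_ncard hsub (finite_toSet _)
      rw [Set.ncard_coe_finset] at h2
      have h3 : ((((Ioc 0 X).filter (fun k => k ∈ SparseModuli.Bad ε)).card : ℕ) : ℝ) ≤ C * (X : ℝ) ^ (1 - η) := by
        convert hC X
      calc (({t : ℕ | 1 ≤ t ∧ t ≤ X ∧ True ∧ ¬ Good ε t}.ncard : ℕ) : ℝ)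
          ≤ ((((Ioc 0 X).filter (fun k => k ∈ SparseModuli.Bad ε)).card : ℕ) : ℝ) := by exact_mod_cast h2
        _ ≤ C * (X : ℝ) ^ (1 - η) := h3
        _ ≤ |C| * (X : ℝ) ^ (1 - η) := mul_le_mul_of_nonneg_right (le_abs_self C) (by positivity)
        _ ≤ |C| * (X : ℝ) ^ (1 - η' + δ) := by
          apply mul_le_mul_of_nonneg_left _ (abs_nonneg _)
          exact Real.rpow_le_rpow_of_exponent_le hX1 (by linarith)) U
  refine ⟨N₀, fun N hN => le_trans (le_of_eq ?_) (hN₀ N hN)⟩
  congr 2
  ext m
  simp only [Set.mem_ofPred_eq, true_implies]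

end Pool.Agent.Results.MP_5dd4bb_nt.MultiplicativeValues
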