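import Pool.Agent.N671.DA.Win
import Pool.Agent.Results.MP_5dd4bb_nt.SparseModuli

/-!
# The lower bound for the variance of primes in progressions, for all moduli near functions of the denominators of good approximations

`G(X, k)` is the variance of the problem. Let `α_1, …, α_m` be real numbers. We consider the natural numbers `q` with
`‖q α_j - β_j‖ ≤ c q^(-τ)` for all `j`, `‖x‖` the distance to the nearest integer; for `β = 0`, `c = 1`, `τ = 1 / m` these
include the denominators of all best simultaneous approximations (the denominators of the convergents for `m = 1`). They form a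
very sparse sequence, with gaps growing exponentially for almost all `α` if `τ = 1 / m`. We show: for every `ε > 0` there is
`η > 0` such that, for every function `g` with steps bounded below by a positive constant and growth at most `v^d`, for example
`a v^d`, for all `α` in `ℝ^m` outside a set of Hausdorff dimension at most `(m + d (1 - η) + κ) / (1 + τ)`, and all `c`, for all
but finitely many such `q` EVERY modulus `k ≥ 1` with `|k - g q| ≤ q^κ` satisfies `G(X, k) ≥ X (log k - 1/2 log X - ε log X)`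
for ALL real `X ≥ k` at once. For `τ = 1 / m` the bound is less than `m` if `d (1 - η) + κ < 1`; and so the statement holds for
almost all `α`.

Proof. The `q` such that some exceptional modulus is near `g q` form a set with `O(X^(d (1 - η) + κ + δ))` elements up to `X`,
by the starting theorem `AlmostAllModuli` of this problem (the form used here is the lemma `count` of the starting file
`SparseModuli`); and the `α` with `‖q α_j - β_j‖ ≤ c q^(-τ)` for all `j` and infinitely many `q` of such a set are covered by few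
small cubes.
-/

set_option autoImplicit false

namespace Pool.Agent.Results.MP_5dd4bb_nt.SimultaneousApproximations

open Finset
open Pool.Agent.N671.DA (Solves Expanding expanding_pow approx_good_nat)
open Pool.Agent.Results.MP_5dd4bb_nt.SparseModuli (Good count)

/-- **The lower bound for the variance for all moduli near the denominators of good approximations.** For every `ε > 0` there
is `0 < η ≤ 1` with the following property. Let `g` have steps `≥ a > 0` and growth at most `v^d`. Let `0 ≤ κ ≤ 1`, `β` in `ℝ^m`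
and `τ > 0`. For all `α` in `ℝ^m` outside a set of Hausdorff dimension at most `(m + d (1 - η) + κ) / (1 + τ)` and all `c`, for
all large `q` with `‖q α_j - β_j‖ ≤ c q^(-τ)` for all `j`, EVERY modulus `k ≥ 1` with `|k - g q| ≤ q^κ` satisfies
`G(X, k) ≥ X (log k - 1/2 log X - ε log X)` for all real `X ≥ k`. The functions `a v^d` with `a > 0`, `d ≥ 1` are examples of
`g`. -/
theorem result :
    (∀ ε : ℝ, 0 < ε → ∃ η : ℝ, 0 < η ∧ η ≤ 1 ∧
      ∀ (g : ℕ → ℝ) (d : ℝ), Expanding g d → ∀ κ : ℝ, 0 ≤ κ → κ ≤ 1 →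
      ∀ (m : ℕ) (β : Fin m → ℝ) (τ : ℝ), 0 < τ →
      ∃ E : Set (Fin m → ℝ), dimH E ≤ ENNReal.ofReal ((m + (d * (1 - η) + κ)) / (1 + τ)) ∧
        ∀ α, α ∉ E → ∀ c : ℝ, ∃ Q : ℕ, ∀ q : ℕ, Q ≤ q → Solves α β q (c * (q : ℝ) ^ (-τ)) →
          ∀ k : ℕ, 1 ≤ k → |(k : ℝ) - g q| ≤ (q : ℝ) ^ κ → Good ε k) ∧
    ∀ a d : ℝ, 0 < a → 1 ≤ d → Expanding (fun v => a * (v : ℝ) ^ d) d := by
  refine ⟨fun ε hε => ?_, fun a d ha hd => expanding_pow ha hd⟩
  obtain ⟨η, hη, C, hC⟩ := count ε hε
  refine ⟨min η 1, lt_min hη one_pos, min_le_right _ _, fun g d hg κ hκ hκ1 m β τ hτ => ?_⟩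
  obtain ⟨η', hη'⟩ : ∃ η', η' = min η 1 := ⟨_, rfl⟩
  rw [← hη']
  have hle : η' ≤ η := by rw [hη']; exact min_le_left _ _
  have hle1 : η' ≤ 1 := by rw [hη']; exact min_le_right _ _
  obtain ⟨E, hE, hE2⟩ := approx_good_nat (fun _ => True) (Good ε) hg (s := 1 - η') (κ := κ) (by linarith) hκ hκ1
    (fun δ hδ => by
      refine ⟨|C|, fun X hX => ?_⟩
      have hX1 : (1 : ℝ) ≤ X := by exact_mod_cast hX
      classical
      have hsub : {t : ℕ | 1 ≤ t ∧ t ≤ X ∧ True ∧ ¬ Good ε t} ⊆
          (((Ioc 0 X).filter (fun k => k ∈ SparseModuli.Bad ε) : Finset ℕ) : Set ℕ) := by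
        rintro t ⟨h1, h2, _, h3⟩
        rw [mem_coe, mem_filter, mem_Ioc]
        exact ⟨⟨h1, h2⟩, SparseModuli.not_good h3⟩
      have h2 := Set.ncard_le_ncard hsub (finite_toSet _)
      rw [Set.ncard_coe_finset] at h2
      have h3 : ((((Ioc 0 X).filter (fun k => k ∈ SparseModuli.Bad ε)).card : ℕ) : ℝ) ≤ C * (X : ℝ) ^ (1 - η) := by
        convert hC X
      calc (({t : ℕ | 1 ≤ t ∧ t ≤ X ∧ True ∧ ¬ Good ε t}.ncard : ℕ) : ℝ)
          ≤ ((((Ioc 0 X).filter (fun k => k ∈ SparseModuli.Bad ε)).card : ℕ) : ℝ) := by exact_mod_cast h2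
        _ ≤ C * (X : ℝ) ^ (1 - η) := h3
        _ ≤ |C| * (X : ℝ) ^ (1 - η) := mul_le_mul_of_nonneg_right (le_abs_self C) (by positivity)
        _ ≤ |C| * (X : ℝ) ^ (1 - η' + δ) := by
          apply mul_le_mul_of_nonneg_left _ (abs_nonneg _)
          exact Real.rpow_le_rpow_of_exponent_le hX1 (by linarith)) β hτ
  refine ⟨E, hE, fun α hα c => ?_⟩
  obtain ⟨Q, hQ⟩ := hE2 α hα c
  exact ⟨Q, fun q hq h1 k hk h2 => hQ q hq h1 k hk trivial h2⟩

end Pool.Agent.Results.MP_5dd4bb_nt.SimultaneousApproximations
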