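import Mathlib
import Pool.Agent.N893.SM.M7
import Pool.Agent.N740.HK.Lim

/-!
# The variance of primes in arithmetic progressions, in sequential random models

The integers are decided one after the other.  `BoundedModel`: the conditional probability of choosing
`n + 1`, given the decisions up to `n`, is `O(1 / log n)` almost surely.  `MonotoneModel`: moreover these
probabilities are `λ n` for the `n + 1` which are free of the primes of a finite set `Q` (and `0` for the other
ones), where `λ` is a random non-increasing sequence.  `LimitModel`: moreover `λ n log n` tends to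
`∏_{p ∈ Q} (1 - 1 / p)⁻¹`.  Hawkins' random sieve is a limit model with `Q = ∅`.

Let `G(x, q) = ∑_a (ψ(x, q, a) - ψ(x) / φ(q)) ^ 2`, over the admissible classes `1 ≤ a ≤ q`, where `ψ` sums
`log n` over the chosen `n`, and let `S(x)` be the sum of `log² n` over the chosen `n ≤ x`.  Almost surely:
in monotone models `G(x, q) = S(x) + O(x + x log² x / √q + √(q x log x) (1 + log log x))` uniformly in
`1 ≤ q ≤ x`; in limit models `G(x, q) ~ x log x` uniformly in `q ≤ x` with `q / log² x → ∞`, and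
`G(x, q) = S(x) - ∏_{p ∈ Q} (1 - 1 / p)⁻¹ x + o(x)` if `q / log⁴ x → ∞` and `q log x (log log x)² = o(x)`.  So in these
models the size of `G(x, q)` is `x log x` and not `x log q`, throughout the range of the question.

Method (`Pool/Agent/N893/SM`, files `M3`-`M7`): the sum of the squares of the deviations `M(x, a)` over the classes
is the sum of the squares of its increments plus the cross term `2 ∑_k y (k + 1) M(k, k + 1)`, where `y` are the
increments; the factors `M(k, k + 1)` are predictable and `O(√(x / q) log x + log² x)`, and the cross term is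
estimated with the exponential supermartingale `exp (θ ∑ w I - (e ^ θ - 1) ∑ w P)` with predictable weights `w`.

The theorem on Hawkins' sieve that its conditional probabilities are asymptotic to `1 / log n` is from the
team files by helper740 (`Pool/Agent/N740/HK`).
-/

set_option autoImplicit false

open MeasureTheory Filter Set
open scoped Topology

namespace Pool.Agent.Results.MP_5dd4bb_nt.VarianceInModels

variable {Ω : Type}

/-- the conditional probability of choosing `n + 1` given the decisions up to `n` -/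
noncomputable def cp [m : MeasurableSpace Ω] (μ : Measure Ω) (ℱ : Filtration ℕ m) (A : ℕ → Set Ω)
    (n : ℕ) (ω : Ω) : ℝ := (μ[(A (n + 1)).indicator (fun _ => (1 : ℝ)) | ℱ n]) ω

/-- `A n` is the event that `n` is chosen; adapted to `ℱ`; the conditional probabilities are
`O(1 / log n)`, almost surely (with a random constant) -/
def BoundedModel [m : MeasurableSpace Ω] (μ : Measure Ω) (ℱ : Filtration ℕ m) (A : ℕ → Set Ω) : Prop :=
  (∀ n, MeasurableSet[ℱ n] (A n)) ∧ ∀ᵐ ω ∂μ, ∃ B : ℝ, ∀ n : ℕ, 2 ≤ n → cp μ ℱ A n ω * Real.log n ≤ B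

/-- a bounded model in which the multiples of the primes in `Q` are not chosen and the conditional
probability of `A (n + 1)`, `n ≥ 2`, is `lam n` if no `p ∈ Q` divides `n + 1`, where `lam` is a random
non-negative and non-increasing sequence -/
def MonotoneModel [m : MeasurableSpace Ω] (μ : Measure Ω) (ℱ : Filtration ℕ m) (A : ℕ → Set Ω)
    (Q : Finset ℕ) : Prop :=
  BoundedModel μ ℱ A ∧ (∀ n, (∃ p ∈ Q, p ∣ n) → A n = ∅) ∧
  ∃ lam : ℕ → Ω → ℝ, ∀ᵐ ω ∂μ, ∀ n : ℕ, 2 ≤ n → 0 ≤ lam n ω ∧ lam (n + 1) ω ≤ lam n ω ∧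
    ((∀ p ∈ Q, ¬ p ∣ n + 1) → cp μ ℱ A n ω = lam n ω)

/-- a monotone model in which the conditional probability of `A (n + 1)`, times `log n`, tends almost
surely to `∏_{p ∈ Q} (1 - 1 / p)⁻¹` along the `n` such that no `p ∈ Q` divides `n + 1` -/
def LimitModel [m : MeasurableSpace Ω] (μ : Measure Ω) (ℱ : Filtration ℕ m) (A : ℕ → Set Ω)
    (Q : Finset ℕ) : Prop :=
  MonotoneModel μ ℱ A Q ∧ ∀ᵐ ω ∂μ, Tendsto (fun n : ℕ => cp μ ℱ A n ω * Real.log n)
    (atTop ⊓ 𝓟 {n : ℕ | ∀ p ∈ Q, ¬ p ∣ n + 1}) (𝓝 (∏ p ∈ Q, (1 - 1 / (p : ℝ))⁻¹))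

open Classical in
/-- The random sieve of Hawkins: `2` is chosen, and given the decisions up to `n ≥ 2` the number
`n + 1` is chosen with probability `∏ (1 - 1 / h)`, the product over the chosen `2 ≤ h ≤ n`. -/
def HawkinsSieve [m : MeasurableSpace Ω] (μ : Measure Ω) (ℱ : Filtration ℕ m) (A : ℕ → Set Ω) : Prop :=
  (∀ n, MeasurableSet[ℱ n] (A n)) ∧ A 2 = univ ∧
  ∀ n, 2 ≤ n → μ[(A (n + 1)).indicator (fun _ => (1 : ℝ)) | ℱ n] =ᵐ[μ]
    fun ω => ∏ h ∈ Finset.Icc 2 n, if ω ∈ A h then 1 - 1 / (h : ℝ) else 1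

/-- the class of `a` modulo `q` is admissible: no prime of `Q` divides both `a` and `q` -/
def Adm (Q : Finset ℕ) (q a : ℕ) : Prop := ∀ p ∈ Q, ¬ (p ∣ a ∧ p ∣ q)

/-- the analogue of Euler's function -/
noncomputable def phi (Q : Finset ℕ) (q : ℕ) : ℝ :=
  q * ∏ p ∈ Q.filter (fun p => p ∣ q), (1 - 1 / (p : ℝ))

open Classical in
/-- the sum of `log n` over the chosen `n ≤ x`, `n ≡ a` modulo `q` -/
noncomputable def psi (A : ℕ → Set Ω) (ω : Ω) (x q a : ℕ) : ℝ :=
  ∑ n ∈ (Finset.Icc 1 x).filter (fun n => n ≡ a [MOD q]), if ω ∈ A n then Real.log n else 0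

open Classical in
/-- the sum of `log² n` over the chosen `n ≤ x` -/
noncomputable def sq (A : ℕ → Set Ω) (ω : Ω) (x : ℕ) : ℝ :=
  ∑ n ∈ Finset.Icc 1 x, if ω ∈ A n then Real.log n ^ 2 else 0

open Classical in
/-- the sum of `(ψ(x, q, a) - ψ(x) / φ(q)) ^ 2` over the admissible `1 ≤ a ≤ q` -/
noncomputable def G (Q : Finset ℕ) (A : ℕ → Set Ω) (ω : Ω) (x q : ℕ) : ℝ :=
  ∑ a ∈ (Finset.Icc 1 q).filter (fun a => Adm Q q a), (psi A ω x q a - psi A ω x 1 0 / phi Q q) ^ 2

open Classical in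
/-- the sum of `log n (1[n is chosen] - P(n is chosen | past))` over the `n ≤ x`, `n ≡ a` modulo `q` -/
noncomputable def dev [m : MeasurableSpace Ω] (μ : Measure Ω) (ℱ : Filtration ℕ m) (A : ℕ → Set Ω)
    (ω : Ω) (x q a : ℕ) : ℝ :=
  ∑ n ∈ (Finset.Icc 1 x).filter (fun n => n ≡ a [MOD q]),
    Real.log n * ((if ω ∈ A n then 1 else 0) - cp μ ℱ A (n - 1) ω)

open Pool.Agent.R528.RM Pool.Agent.N893.SM

lemma In_eq (A : ℕ → Set Ω) (n : ℕ) (ω : Ω) [Decidable (ω ∈ A n)] : (if ω ∈ A n then (1 : ℝ) else 0) = In A n ω := by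
  unfold In
  split_ifs with h
  · rw [indicator_of_mem h]
  · rw [indicator_of_notMem h]

lemma psi_eq (A : ℕ → Set Ω) (ω : Ω) (x q a : ℕ) : psi A ω x q a = SA (fun n => Real.log n * In A n ω) x q a := by
  classical
  unfold psi SA
  refine Finset.sum_congr rfl fun n _ => ?_
  show (if ω ∈ A n then Real.log n else 0) = Real.log n * In A n ω
  rw [← In_eq]
  split_ifs <;> simp

lemma psi_one (A : ℕ → Set Ω) (ω : Ω) (x : ℕ) : psi A ω x 1 0 = SA (fun n => Real.log n * In A n ω) x 1 1 := by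
  rw [psi_eq]
  exact SA_congr _ Nat.modEq_one

lemma sq_eq (A : ℕ → Set Ω) (ω : Ω) (x : ℕ) : sq A ω x = S2 A ω x := by
  classical
  unfold sq S2
  rw [Finset.range_eq_Ico, Finset.sum_Ico_add' (fun n => Real.log ((n : ℕ) : ℝ) ^ 2 * In A n ω) 0 x 1]
  refine Finset.sum_congr ?_ fun n _ => ?_
  · ext n
    simp only [Finset.mem_Icc, Finset.mem_Ico]
    omega
  · rw [← In_eq]
    split_ifs <;> simp

lemma G_eq (Q : Finset ℕ) (A : ℕ → Set Ω) (ω : Ω) (x q : ℕ) : G Q A ω x q = GQ Q A ω x q := by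
  unfold G GQ
  refine Finset.sum_congr rfl fun a _ => ?_
  rw [psi_eq, psi_one]
  rfl

lemma dev_eq [m : MeasurableSpace Ω] (μ : Measure Ω) (ℱ : Filtration ℕ m) (A : ℕ → Set Ω) (ω : Ω) (x q a : ℕ) :
    dev μ ℱ A ω x q a = SA (yy μ ℱ A ω) x q a := by
  unfold dev SA
  refine Finset.sum_congr rfl fun n _ => ?_
  rw [In_eq]
  rfl

lemma loglog_nonneg {x : ℕ} (hx : 3 ≤ x) : 0 ≤ Real.log (Real.log x) := by
  have hxr : (3 : ℝ) ≤ x := by exact_mod_cast hx
  refine Real.log_nonneg ?_
  rw [Real.le_log_iff_exp_le (by linarith)]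
  have h1 := Real.exp_one_lt_d9
  linarith

/-- what holds almost surely in a bounded model -/
lemma core {Ω : Type} [m : MeasurableSpace Ω] {μ : Measure Ω} [IsProbabilityMeasure μ]
    {ℱ : Filtration ℕ m} {A : ℕ → Set Ω} (h : BoundedModel μ ℱ A) : ∀ᵐ ω ∂μ,
    (∀ n, 0 ≤ dens μ ℱ A n ω ∧ dens μ ℱ A n ω ≤ 1) ∧ (∃ B : ℝ, 1 ≤ B ∧ ∀ n : ℕ, 2 ≤ n → dens μ ℱ A n ω * Real.log n ≤ B) ∧
    ∃ C1 : ℝ, 0 ≤ C1 ∧ (∀ x q a : ℕ, 2 ≤ x → 1 ≤ q → q ≤ x → |SA (yy μ ℱ A ω) x q a| ≤ C1 * (√((x : ℝ) / q) + Real.log x) * Real.log x) ∧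
    ∃ C2 : ℝ, 0 ≤ C2 ∧ ∀ᶠ x : ℕ in atTop, ∀ q : ℕ, 1 ≤ q → q ≤ x →
      |∑ n ∈ Finset.range x, yy μ ℱ A ω (n + 1) * SA (yy μ ℱ A ω) n q (n + 1)| ≤ C2 * (x / Real.log x + x * Real.log x ^ 2 / √(q : ℝ)) := by
  obtain ⟨hA, hd⟩ := h
  have h01 : ∀ᵐ ω ∂μ, ∀ n, 0 ≤ dens μ ℱ A n ω ∧ dens μ ℱ A n ω ≤ 1 := ae_all_iff.2 fun n => dens01 hA n
  filter_upwards [h01, hd, errM (μ := μ) hA, errVar (μ := μ) hA 1, errVar (μ := μ) hA (-1)] with ω h01 hd he hp hm
  obtain ⟨C, hC, hM⟩ := mont (μ := μ) h01 hd he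
  have hy : ∀ x q a : ℕ, 2 ≤ x → 1 ≤ q → q ≤ x → |SA (yy μ ℱ A ω) x q a| ≤ (2 * (C + 2)) * (√((x : ℝ) / q) + Real.log x) * Real.log x :=
    fun x q a hx hq hqx => yy_mont (μ := μ) h01 hC hM a hx hq hqx
  have hcr := cross (μ := μ) h01 hd hy hp hm
  obtain ⟨B', hB'⟩ := hd
  refine ⟨h01, ⟨max B' 1, le_max_right _ _, fun n hn => (hB' n hn).trans (le_max_left _ _)⟩, 2 * (C + 2), by linarith, hy, hcr⟩

/-- what holds almost surely in a monotone model -/
lemma core_mono {Ω : Type} [m : MeasurableSpace Ω] {μ : Measure Ω} [IsProbabilityMeasure μ]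
    {ℱ : Filtration ℕ m} {A : ℕ → Set Ω} {Q : Finset ℕ} (hQ : ∀ p ∈ Q, p.Prime) (h : MonotoneModel μ ℱ A Q) : ∀ᵐ ω ∂μ,
    (∀ n, (∃ p ∈ Q, p ∣ n + 1) → dens μ ℱ A n ω = 0) ∧ (∀ n, (∃ p ∈ Q, p ∣ n) → In A n ω = 0) ∧
    ∃ C, 0 ≤ C ∧ ∀ᶠ x : ℕ in atTop, ∀ q : ℕ, 1 ≤ q → q ≤ x →
      |GQ Q A ω x q - ∑ n ∈ Finset.range x, yy μ ℱ A ω (n + 1) ^ 2| ≤
        C * (x / Real.log x + x * Real.log x ^ 2 / √(q : ℝ) + √((q : ℝ) * x * Real.log x) * (1 + Real.log (Real.log x))) := by
  obtain ⟨hb, hcop, lam, hlam⟩ := h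
  have hzero : ∀ᵐ ω ∂μ, ∀ n, (∃ p ∈ Q, p ∣ n + 1) → dens μ ℱ A n ω = 0 := by
    rw [ae_all_iff]
    intro n
    by_cases hn : ∃ p ∈ Q, p ∣ n + 1
    · have h1 : (A (n + 1)).indicator (fun _ => (1 : ℝ)) = 0 := by
        rw [hcop (n + 1) hn, Set.indicator_empty]
        rfl
      have h2 : dens μ ℱ A n =ᵐ[μ] 0 := by
        unfold dens
        rw [h1]
        exact (condExp_zero (μ := μ) (m := ℱ n)).eventuallyEq
      filter_upwards [h2] with ω hω _
      exact hω
    · exact Eventually.of_forall fun ω h => absurd h hn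
  filter_upwards [core hb, hlam, hzero] with ω ⟨h01, ⟨B, hB, hd⟩, C1, hC1, hy, C2, hC2, hT⟩ hlam hzero
  have hIn : ∀ n, (∃ p ∈ Q, p ∣ n) → In A n ω = 0 := by
    intro n hn
    unfold In
    rw [hcop n hn]
    simp
  obtain ⟨C3, hC3, hpred⟩ := pred_equi Q hQ (D := fun n => dens μ ℱ A n ω) (lam := fun n => lam n ω) h01 hB hd hlam hzero
  exact ⟨hzero, hIn, var_mono (μ := μ) Q hQ h01 hB hd hC1 hy hC2 hT hC3 hpred hzero hIn⟩

end Pool.Agent.Results.MP_5dd4bb_nt.VarianceInModels

open Pool.Agent.Results.MP_5dd4bb_nt.VarianceInModels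
open Pool.Agent.R528.RM Pool.Agent.N893.SM

/-- Hawkins' sieve is a limit model with `Q = ∅`; in every bounded model, almost surely there is `C` such that
the sum over `1 ≤ a ≤ q` of the squares of the deviations `dev (x, q, a)` differs from the sum of `log² n` over the
chosen `n ≤ x` by at most `C (x + x log² x / √q)` for all `1 ≤ q ≤ x`; in every monotone model, almost surely there is
`C` such that `|G(x, q) - ∑ log² n| ≤ C (x + x log² x / √q + √(q x log x) (1 + log log x))` for all `1 ≤ q ≤ x`, `x ≥ 3`;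
in every limit model, almost surely: for all `ε > 0` there is `K` such that for all large `x`,
`|G(x, q) - x log x| ≤ ε x log x` for all `q` with `K log² x ≤ q ≤ x`, and
`|G(x, q) - (∑ log² n - ∏_{p ∈ Q} (1 - 1 / p)⁻¹ x)| ≤ ε x` for all `q` with `K log⁴ x ≤ q` and
`K q log x (log log x)² ≤ x`; and for all `ε > 0` and all large `x`, `G(x, q) - x log q ≥ (ε / 2) x log x` for all
`q` with `x ^ (1 / 2 + ε) < q < x ^ (1 - ε)`. -/
theorem Pool.Agent.Results.MP_5dd4bb_nt.VarianceInModels.result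
    {Ω : Type} [m : MeasurableSpace Ω] (μ : Measure Ω) [IsProbabilityMeasure μ]
    (ℱ : Filtration ℕ m) (A : ℕ → Set Ω) :
    (HawkinsSieve μ ℱ A → LimitModel μ ℱ A ∅) ∧
    (BoundedModel μ ℱ A → ∀ᵐ ω ∂μ, ∃ C : ℝ, ∀ x q : ℕ, 2 ≤ x → 1 ≤ q → q ≤ x →
      |∑ a ∈ Finset.Icc 1 q, dev μ ℱ A ω x q a ^ 2 - sq A ω x| ≤ C * (x + x * Real.log x ^ 2 / √(q : ℝ))) ∧
    (∀ Q : Finset ℕ, (∀ p ∈ Q, p.Prime) →
      (MonotoneModel μ ℱ A Q → ∀ᵐ ω ∂μ, ∃ C : ℝ, ∀ x q : ℕ, 3 ≤ x → 1 ≤ q → q ≤ x →
        |G Q A ω x q - sq A ω x| ≤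
          C * (x + x * Real.log x ^ 2 / √(q : ℝ) + √((q : ℝ) * x * Real.log x) * (1 + Real.log (Real.log x)))) ∧
      (LimitModel μ ℱ A Q → ∀ᵐ ω ∂μ,
        (∀ ε : ℝ, 0 < ε → ∃ K : ℝ, ∀ᶠ x : ℕ in atTop, ∀ q : ℕ,
          (K * Real.log x ^ 2 ≤ q → q ≤ x → |G Q A ω x q - x * Real.log x| ≤ ε * (x * Real.log x)) ∧
          (K * Real.log x ^ 4 ≤ q → K * (q * Real.log x * Real.log (Real.log x) ^ 2) ≤ x →
            |G Q A ω x q - (sq A ω x - (∏ p ∈ Q, (1 - 1 / (p : ℝ))⁻¹) * x)| ≤ ε * x)) ∧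
        (∀ ε : ℝ, 0 < ε → ∀ᶠ x : ℕ in atTop, ∀ q : ℕ, (x : ℝ) ^ (1 / 2 + ε) < q → (q : ℝ) < (x : ℝ) ^ (1 - ε) →
          ε / 2 * (x * Real.log x) ≤ G Q A ω x q - x * Real.log q))) := by
  classical
  refine ⟨?_, ?_, ?_⟩
  · rintro ⟨h1, h2, h3⟩
    have hs : Pool.Agent.N740.HK.HS μ ℱ A := ⟨h1, h2, fun n hn => by
      filter_upwards [h3 n hn] with ω hω
      have e : (∏ h ∈ Finset.Icc 2 n, if ω ∈ A h then 1 - 1 / (h : ℝ) else 1) =
          (Pool.Agent.N740.HK.Y A n ω)⁻¹ := by
        unfold Pool.Agent.N740.HK.Y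
        rw [← Finset.prod_inv_distrib]
        refine Finset.prod_congr rfl fun h hh => ?_
        have h2 : (2 : ℝ) ≤ h := by exact_mod_cast (Finset.mem_Icc.1 hh).1
        by_cases hA : ω ∈ A h
        · rw [if_pos hA, if_pos hA, inv_div]
          field_simp
        · rw [if_neg hA, if_neg hA, inv_one]
      rw [← e]
      exact hω⟩
    refine ⟨⟨⟨h1, ?_⟩, fun n hn => ?_, fun n ω => ∏ h ∈ Finset.Icc 2 n, (if ω ∈ A h then 1 - 1 / (h : ℝ) else 1), ?_⟩, ?_⟩
    · filter_upwards [Pool.Agent.N740.HK.hawk_dens hs] with ω hω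
      obtain ⟨B, hB⟩ := hω.bddAbove_range
      exact ⟨B, fun n _ => hB ⟨n, rfl⟩⟩
    · obtain ⟨p, hp, _⟩ := hn
      exact absurd hp (Finset.notMem_empty p)
    · have hall : ∀ᵐ ω ∂μ, ∀ n, 2 ≤ n → cp μ ℱ A n ω = ∏ h ∈ Finset.Icc 2 n, (if ω ∈ A h then 1 - 1 / (h : ℝ) else 1) := by
        rw [ae_all_iff]
        intro n
        by_cases hn : 2 ≤ n
        · filter_upwards [h3 n hn] with ω hω _
          exact hω
        · exact Eventually.of_forall fun ω h => absurd h hn
      filter_upwards [hall] with ω hω n hn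
      have hfac : ∀ h : ℕ, 2 ≤ h → 0 ≤ (if ω ∈ A h then 1 - 1 / (h : ℝ) else 1) ∧ (if ω ∈ A h then 1 - 1 / (h : ℝ) else 1) ≤ 1 := by
        intro h hh
        have h2 : (2 : ℝ) ≤ h := by exact_mod_cast hh
        have h3 : 1 / (h : ℝ) ≤ 1 / 2 := one_div_le_one_div_of_le (by norm_num) h2
        have h4 : 0 ≤ 1 / (h : ℝ) := by positivity
        split_ifs
        · constructor <;> linarith
        · norm_num
      refine ⟨Finset.prod_nonneg fun h hh => (hfac h (Finset.mem_Icc.1 hh).1).1, ?_, fun _ => hω n hn⟩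
      rw [← Finset.insert_Icc_right_eq_Icc_add_one (by omega), Finset.prod_insert (by simp)]
      exact mul_le_of_le_one_left (Finset.prod_nonneg fun h hh => (hfac h (Finset.mem_Icc.1 hh).1).1) (hfac (n + 1) (by omega)).2
    · filter_upwards [Pool.Agent.N740.HK.hawk_dens hs] with ω hω
      rw [Finset.prod_empty]
      exact hω.mono_left inf_le_left
  · intro hb
    filter_upwards [core hb] with ω ⟨h01, ⟨B, hB, hd⟩, C1, hC1, hy, C2, hC2, hT⟩
    obtain ⟨C, hC, hev⟩ := var_bdd (μ := μ) h01 hB hd hC1 hy hC2 hT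
    obtain ⟨C', hC', hall⟩ := all_of_ev (F := fun x q => Pool.Agent.N893.SM.VV (yy μ ℱ A ω) x q - S2 A ω x)
      (G := fun x q => (x : ℝ) + x * Real.log x ^ 2 / √(q : ℝ)) (x1 := 2) (fun x q hx hq hqx => by
        have h1 : (2 : ℝ) ≤ x := by exact_mod_cast hx
        have h2 : 0 ≤ (x : ℝ) * Real.log x ^ 2 / √(q : ℝ) := by positivity
        show 1 ≤ (x : ℝ) + x * Real.log x ^ 2 / √(q : ℝ)
        linarith) hC hev
    refine ⟨C', fun x q hx hq hqx => ?_⟩
    have h1 := hall x q hx hq hqx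
    have e1 : ∑ a ∈ Finset.Icc 1 q, dev μ ℱ A ω x q a ^ 2 = Pool.Agent.N893.SM.VV (yy μ ℱ A ω) x q := by
      unfold Pool.Agent.N893.SM.VV
      refine Finset.sum_congr rfl fun a _ => ?_
      rw [dev_eq]
    rw [e1, sq_eq]
    exact h1
  · intro Q hQ
    refine ⟨?_, ?_⟩
    · intro hm
      filter_upwards [core hm.1, core_mono hQ hm] with ω ⟨h01, ⟨B, hB, hd⟩, C1, hC1, hy, C2, hC2, hT⟩ ⟨_, _, C, hC, hG⟩
      set C' : ℝ := C + (2 * (2 * B + 1) * (2 * C1 + 2 * B + 1) + (2 * B + 1) ^ 2) with hC'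
      have hC'0 : 0 ≤ C' := by positivity
      obtain ⟨C'', hC'', hall⟩ := all_of_ev (F := fun x q => GQ Q A ω x q - S2 A ω x)
        (G := fun x q => (x : ℝ) + x * Real.log x ^ 2 / √(q : ℝ) + √((q : ℝ) * x * Real.log x) * (1 + Real.log (Real.log x))) (x1 := 3)
        (fun x q hx hq hqx => by
          have h1 : (3 : ℝ) ≤ x := by exact_mod_cast hx
          have h2 : 0 ≤ (x : ℝ) * Real.log x ^ 2 / √(q : ℝ) := by positivity
          have h3 := loglog_nonneg hx
          have h4 : 0 ≤ √((q : ℝ) * x * Real.log x) * (1 + Real.log (Real.log x)) := by positivity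
          show 1 ≤ (x : ℝ) + x * Real.log x ^ 2 / √(q : ℝ) + √((q : ℝ) * x * Real.log x) * (1 + Real.log (Real.log x))
          linarith) hC'0 (by
        filter_upwards [hG, Ps_le h01 hB hd hC1 hy, ev_logs, eventually_ge_atTop 3] with x h1 h2 ⟨_, hl1, _⟩ hx3 q hq hqx
        have h3 := h1 q hq hqx
        have h4 := diag (μ := μ) h01 hB hd x
        have h5 : 2 * (2 * B + 1) * Ps A ω x ≤ 2 * (2 * B + 1) * ((2 * C1 + 2 * B + 1) * x) := mul_le_mul_of_nonneg_left h2 (by positivity)
        have h6 : 0 ≤ (x : ℝ) * Real.log x ^ 2 / √(q : ℝ) := by positivity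
        have h7 := loglog_nonneg hx3
        have h8 : 0 ≤ √((q : ℝ) * x * Real.log x) * (1 + Real.log (Real.log x)) := by positivity
        have h9 : (x : ℝ) / Real.log x ≤ x := div_le_self (Nat.cast_nonneg x) hl1
        have h10 : C * (x / Real.log x + x * Real.log x ^ 2 / √(q : ℝ) + √((q : ℝ) * x * Real.log x) * (1 + Real.log (Real.log x))) ≤
            C * (x + x * Real.log x ^ 2 / √(q : ℝ) + √((q : ℝ) * x * Real.log x) * (1 + Real.log (Real.log x))) :=
          mul_le_mul_of_nonneg_left (by linarith) hC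
        have h11 : (2 * (2 * B + 1) * (2 * C1 + 2 * B + 1) + (2 * B + 1) ^ 2) * x ≤
            (2 * (2 * B + 1) * (2 * C1 + 2 * B + 1) + (2 * B + 1) ^ 2) * (x + x * Real.log x ^ 2 / √(q : ℝ) + √((q : ℝ) * x * Real.log x) * (1 + Real.log (Real.log x))) :=
          mul_le_mul_of_nonneg_left (by linarith) (by positivity)
        have h12 := abs_sub_le (GQ Q A ω x q) (∑ n ∈ Finset.range x, yy μ ℱ A ω (n + 1) ^ 2) (S2 A ω x)
        refine h12.trans ?_
        rw [hC', add_mul]
        refine add_le_add (h3.trans h10) (h4.trans (le_trans ?_ h11))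
        linarith)
      refine ⟨C'', fun x q hx hq hqx => ?_⟩
      have h1 := hall x q hx hq hqx
      rw [G_eq, sq_eq]
      exact h1
    · rintro ⟨hm, hlim⟩
      filter_upwards [core hm.1, core_mono hQ hm, hlim] with ω ⟨h01, ⟨B, hB, hd⟩, C1, hC1, hy, C2, hC2, hT⟩ ⟨hzero, hIn, C, hC, hG⟩ hlim
      set W := ∏ p ∈ Q, p with hWdef
      have hW : 0 < W := Finset.prod_pos fun q hq => (hQ q hq).pos
      have hcopW : ∀ n : ℕ, n.Coprime W ↔ ∀ p ∈ Q, ¬ p ∣ n := fun n => coprime_prod_iff Q hQ n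
      obtain ⟨c, hc⟩ : ∃ c : ℝ, c = (W : ℝ) / Nat.totient W := ⟨_, rfl⟩
      have hcprod : ∏ p ∈ Q, (1 - 1 / (p : ℝ))⁻¹ = c := by rw [hc, ← totient_prod Q hQ]
      rw [hcprod] at hlim ⊢
      have hlim' : Tendsto (fun n : ℕ => dens μ ℱ A n ω * Real.log n - (if (n + 1).Coprime W then c else 0)) atTop (𝓝 0) := by
        rw [Metric.tendsto_atTop]
        intro ε hε
        have h1 := Metric.tendsto_nhds.1 hlim ε hε
        rw [eventually_inf_principal] at h1
        obtain ⟨n0, hn0⟩ := eventually_atTop.1 h1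
        refine ⟨n0, fun n hn => ?_⟩
        by_cases hcp : (n + 1).Coprime W
        · have h2 := hn0 n hn ((hcopW _).1 hcp)
          rw [if_pos hcp, dist_zero_right, Real.norm_eq_abs]
          rw [Real.dist_eq] at h2
          exact h2
        · have hex : ∃ p ∈ Q, p ∣ n + 1 := by
            by_contra hcon
            push Not at hcon
            exact hcp ((hcopW _).2 hcon)
          rw [if_neg hcp, hzero n hex, zero_mul, sub_zero, dist_self]
          exact hε
      have hPs := Ps_lim (μ := μ) h01 hC1 hy hW hc hlim'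
      have hInW : ∀ n, ¬ n.Coprime W → In A n ω = 0 := by
        intro n hn
        refine hIn n ?_
        by_contra hcon
        push Not at hcon
        exact hn ((hcopW _).2 hcon)
      have hdiag := diag_lim (μ := μ) h01 hW hc hlim' hInW hPs
      have hc0 : 0 < c := by
        rw [hc]
        have htot : (0 : ℝ) < Nat.totient W := by exact_mod_cast Nat.totient_pos.2 hW
        have hWr : (0 : ℝ) < W := by exact_mod_cast hW
        positivity
      have key : ∀ ε : ℝ, 0 < ε → ∃ K : ℝ, ∀ᶠ x : ℕ in atTop, ∀ q : ℕ,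
          (K * Real.log x ^ 2 ≤ q → q ≤ x → |GQ Q A ω x q - x * Real.log x| ≤ ε * (x * Real.log x)) ∧
          (K * Real.log x ^ 4 ≤ q → K * (q * Real.log x * Real.log (Real.log x) ^ 2) ≤ x →
            |GQ Q A ω x q - (S2 A ω x - c * x)| ≤ ε * x) := by
        intro ε hε
        set K : ℝ := (16 * (C + 1) / ε) ^ 2 + 1 with hK
        have hK1 : 1 ≤ K := by
          rw [hK]
          linarith [sq_nonneg (16 * (C + 1) / ε)]
        have hKp : 0 < K := by linarith
        have hsK : 16 * (C + 1) / ε ≤ √K := by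
          refine Real.le_sqrt_of_sq_le ?_
          rw [hK]
          linarith
        have hsKp : 0 < √K := Real.sqrt_pos.2 hKp
        have hCK : C * (1 / √K) ≤ ε / 16 := by
          rw [mul_one_div, div_le_iff₀ hsKp]
          rw [div_le_iff₀ hε] at hsK
          linarith
        set η := ε / (8 * (C + 1)) with hη
        have hη0 : 0 < η := by positivity
        have hCη : C * η ≤ ε / 8 := by
          rw [hη, mul_div_assoc', div_le_div_iff₀ (by positivity) (by norm_num)]
          nlinarith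
        have hdiag2 := Metric.tendsto_nhds.1 hdiag (ε / 4) (by positivity)
        refine ⟨K, ?_⟩
        filter_upwards [hG, S2_lim hPs (ε := ε / 4) (by positivity), hdiag2, ev_logs5, ev_ll (η := η ^ 2) (by positivity),
          tendsto_log.eventually_ge_atTop (1 / η), tendsto_log.eventually_ge_atTop (Real.exp 1),
          tendsto_log.eventually_ge_atTop (4 * (c + ε / 4) / ε)] with
          x hGx hS2 hdg ⟨h16, hl1, hl5⟩ ⟨hll0, hll⟩ hlη hle hlc q
        have hxr : (16 : ℝ) ≤ x := by exact_mod_cast h16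
        have hxp : (0 : ℝ) < x := by linarith
        rw [Real.dist_eq] at hdg
        set L := Real.log (x : ℝ) with hL
        have hLp : 0 < L := by linarith
        set LL := Real.log L with hLL
        have hLL1 : 1 ≤ LL := by
          rw [hLL, Real.le_log_iff_exp_le hLp]
          exact hle
        have hdg' : |∑ n ∈ Finset.range x, yy μ ℱ A ω (n + 1) ^ 2 - (S2 A ω x - c * x)| ≤ ε / 4 * x := by
          have e1 : (∑ n ∈ Finset.range x, yy μ ℱ A ω (n + 1) ^ 2 - S2 A ω x) / x - -c =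
              (∑ n ∈ Finset.range x, yy μ ℱ A ω (n + 1) ^ 2 - (S2 A ω x - c * x)) / x := by
            field_simp
            ring
          rw [e1, abs_div, abs_of_pos hxp, div_lt_iff₀ hxp] at hdg
          exact hdg.le
        have hxL : (x : ℝ) / L ≤ η * x := by
          rw [div_le_iff₀ hLp]
          have : 1 ≤ η * L := by
            rw [div_le_iff₀ hη0] at hlη
            linarith
          nlinarith
        have hsx : √(x : ℝ) * √(x : ℝ) = x := Real.mul_self_sqrt hxp.le
        have hlls : 1 + LL ≤ η * √L := by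
          have h1 : 1 + LL ≤ √(η ^ 2 * L) := Real.le_sqrt_of_sq_le hll
          rwa [Real.sqrt_mul (sq_nonneg _), Real.sqrt_sq hη0.le] at h1
        have hsL : √L * √L = L := Real.mul_self_sqrt hLp.le
        constructor
        · intro hq1 hq2
          have hqr : (q : ℝ) ≤ x := by exact_mod_cast hq2
          have hqp : (0 : ℝ) < q := lt_of_lt_of_le (by positivity) hq1
          have hq1' : 1 ≤ q := by exact_mod_cast hqp
          have h1 := hGx q hq1' hq2
          -- the second term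
          have e1 : x * L ^ 2 / √(q : ℝ) ≤ 1 / √K * (x * L) := by
            have h2 : √K * L ≤ √(q : ℝ) := by
              have := Real.sqrt_le_sqrt hq1
              rwa [Real.sqrt_mul hKp.le, Real.sqrt_sq hLp.le] at this
            rw [div_le_iff₀ (Real.sqrt_pos.2 hqp)]
            have h3 : 1 / √K * (x * L) * (√K * L) ≤ 1 / √K * (x * L) * √(q : ℝ) := mul_le_mul_of_nonneg_left h2 (by positivity)
            refine le_trans (le_of_eq ?_) h3
            field_simp
          have e2 : √((q : ℝ) * x * L) * (1 + LL) ≤ η * (x * L) := by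
            have h2 : √((q : ℝ) * x * L) ≤ x * √L := by
              have h3 : (q : ℝ) * x * L ≤ x * x * L := by
                refine mul_le_mul_of_nonneg_right (mul_le_mul_of_nonneg_right hqr hxp.le) hLp.le
              have h4 := Real.sqrt_le_sqrt h3
              rwa [Real.sqrt_mul (show (0 : ℝ) ≤ x * x by positivity) L, Real.sqrt_mul_self hxp.le] at h4
            calc √((q : ℝ) * x * L) * (1 + LL) ≤ (x * √L) * (η * √L) := mul_le_mul h2 hlls (by linarith) (by positivity)
              _ = η * (x * (√L * √L)) := by ring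
              _ = _ := by rw [hsL]
          have hxxL : (x : ℝ) ≤ x * L := by nlinarith
          have hxLp : 0 ≤ (x : ℝ) * L := by positivity
          have e3 : (x : ℝ) / L ≤ η * (x * L) := hxL.trans (mul_le_mul_of_nonneg_left hxxL hη0.le)
          have h5 : C * (x / L + x * L ^ 2 / √(q : ℝ) + √((q : ℝ) * x * L) * (1 + LL)) ≤ (5 * ε / 16) * (x * L) := by
            calc C * (x / L + x * L ^ 2 / √(q : ℝ) + √((q : ℝ) * x * L) * (1 + LL)) ≤
                C * (η * (x * L) + 1 / √K * (x * L) + η * (x * L)) := mul_le_mul_of_nonneg_left (by linarith) hC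
              _ = (C * η + C * (1 / √K) + C * η) * (x * L) := by ring
              _ ≤ _ := mul_le_mul_of_nonneg_right (by linarith) hxLp
          -- the diagonal
          have h6 : |∑ n ∈ Finset.range x, yy μ ℱ A ω (n + 1) ^ 2 - S2 A ω x| ≤ ε / 4 * (x * L) := by
            have h7 := abs_le.1 hdg'
            have h8 : (c + ε / 4) * x ≤ ε / 4 * (x * L) := by
              rw [div_le_iff₀ hε] at hlc
              nlinarith
            have h9 : 0 ≤ ε / 4 * (x : ℝ) := by positivity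
            have h10 : 0 ≤ c * (x : ℝ) := by positivity
            rw [abs_le]
            constructor
            · nlinarith [h7.1]
            · nlinarith [h7.2]
          have h7 := abs_sub_le (GQ Q A ω x q) (∑ n ∈ Finset.range x, yy μ ℱ A ω (n + 1) ^ 2) (x * L)
          have h8 := abs_sub_le (∑ n ∈ Finset.range x, yy μ ℱ A ω (n + 1) ^ 2) (S2 A ω x) (x * L)
          nlinarith
        · intro hq1 hq2
          have hqp : (0 : ℝ) < q := lt_of_lt_of_le (by positivity) hq1
          have hq1' : 1 ≤ q := by exact_mod_cast hqp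
          have hL4 : 1 ≤ L ^ 4 := one_le_pow₀ hl1
          have hq3 : (q : ℝ) ≤ x := by
            refine le_trans ?_ hq2
            have h2 : 1 ≤ K * (L * LL ^ 2) := by
              have h3 : 1 ≤ LL ^ 2 := one_le_pow₀ hLL1
              have h4 : 1 ≤ L * LL ^ 2 := by nlinarith
              nlinarith
            calc (q : ℝ) = q * 1 := (mul_one _).symm
              _ ≤ q * (K * (L * LL ^ 2)) := mul_le_mul_of_nonneg_left h2 hqp.le
              _ = K * (q * L * LL ^ 2) := by ring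
          have hq2' : q ≤ x := by exact_mod_cast hq3
          have h1 := hGx q hq1' hq2'
          have e1 : x * L ^ 2 / √(q : ℝ) ≤ 1 / √K * x := by
            have h2 : √K * L ^ 2 ≤ √(q : ℝ) := by
              have := Real.sqrt_le_sqrt hq1
              rwa [Real.sqrt_mul hKp.le, show L ^ 4 = (L ^ 2) ^ 2 by ring, Real.sqrt_sq (by positivity)] at this
            rw [div_le_iff₀ (Real.sqrt_pos.2 hqp)]
            have h3 : 1 / √K * x * (√K * L ^ 2) ≤ 1 / √K * x * √(q : ℝ) := mul_le_mul_of_nonneg_left h2 (by positivity)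
            refine le_trans (le_of_eq ?_) h3
            field_simp
          have e2 : √((q : ℝ) * x * L) * (1 + LL) ≤ 2 * (1 / √K) * x := by
            have h2 : √((q : ℝ) * x * L) * LL ≤ 1 / √K * x := by
              have h3 : √((q : ℝ) * x * L) * LL = √(((q : ℝ) * L * LL ^ 2) * x) := by
                rw [show ((q : ℝ) * L * LL ^ 2) * x = (q * x * L) * LL ^ 2 by ring, Real.sqrt_mul (by positivity) (LL ^ 2), Real.sqrt_sq (by linarith)]
              rw [h3]
              have h4 : ((q : ℝ) * L * LL ^ 2) * x ≤ (1 / √K * x) ^ 2 := by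
                have h5 : (q : ℝ) * L * LL ^ 2 ≤ x / K := by
                  rw [le_div_iff₀ hKp]
                  linarith
                have h6 : (1 / √K * x) ^ 2 = x / K * x := by
                  rw [mul_pow, div_pow, Real.sq_sqrt hKp.le]
                  ring
                rw [h6]
                exact mul_le_mul_of_nonneg_right h5 hxp.le
              exact (Real.sqrt_le_sqrt h4).trans (le_of_eq (Real.sqrt_sq (by positivity)))
            have h3 : √((q : ℝ) * x * L) * (1 + LL) ≤ √((q : ℝ) * x * L) * (2 * LL) :=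
              mul_le_mul_of_nonneg_left (by linarith) (Real.sqrt_nonneg _)
            linarith
          have h5 : C * (x / L + x * L ^ 2 / √(q : ℝ) + √((q : ℝ) * x * L) * (1 + LL)) ≤ (5 * ε / 16) * x := by
            calc C * (x / L + x * L ^ 2 / √(q : ℝ) + √((q : ℝ) * x * L) * (1 + LL)) ≤
                C * (η * x + 1 / √K * x + 2 * (1 / √K) * x) := mul_le_mul_of_nonneg_left (by linarith) hC
              _ = (C * η + 3 * (C * (1 / √K))) * x := by ring
              _ ≤ _ := mul_le_mul_of_nonneg_right (by linarith) hxp.le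
          have h7 := abs_sub_le (GQ Q A ω x q) (∑ n ∈ Finset.range x, yy μ ℱ A ω (n + 1) ^ 2) (S2 A ω x - c * x)
          nlinarith
      refine ⟨fun ε hε => ?_, fun ε hε => ?_⟩
      · obtain ⟨K, hK⟩ := key ε hε
        refine ⟨K, ?_⟩
        filter_upwards [hK] with x hx q
        rw [G_eq, sq_eq]
        exact hx q
      · obtain ⟨K, hK⟩ := key (ε / 2) (by positivity)
        have h1 : Tendsto (fun x : ℝ => Real.log x ^ 2 / x ^ (1 / 2 : ℝ)) atTop (𝓝 0) := by
          have := isLittleO_log_rpow_rpow_atTop (s := 1 / 2) (2 : ℝ) (by norm_num)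
          have h2 := this.tendsto_div_nhds_zero
          refine h2.congr fun x => ?_
          rw [← Real.rpow_natCast]
          norm_num
        have h2 := (h1.comp tendsto_natCast_atTop_atTop).eventually_le_const (show (0 : ℝ) < 1 / (|K| + 1) by positivity)
        filter_upwards [hK, h2, eventually_ge_atTop 3] with x hx h2 hx3 q hq1 hq2
        have hxr : (3 : ℝ) ≤ x := by exact_mod_cast hx3
        have hxp : (0 : ℝ) < x := by linarith
        have hlx : 0 ≤ Real.log (x : ℝ) := Real.log_natCast_nonneg x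
        simp only [Function.comp] at h2
        rw [div_le_div_iff₀ (by positivity) (by positivity), one_mul] at h2
        have hq0 : (0 : ℝ) < q := lt_trans (by positivity) hq1
        have hqx : (q : ℝ) ≤ x := by
          refine hq2.le.trans ?_
          calc (x : ℝ) ^ (1 - ε) ≤ (x : ℝ) ^ (1 : ℝ) := Real.rpow_le_rpow_of_exponent_le (by linarith) (by linarith)
            _ = x := Real.rpow_one _
        have hKq : K * Real.log x ^ 2 ≤ q := by
          have h3 : K * Real.log x ^ 2 ≤ Real.log x ^ 2 * (|K| + 1) := by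
            have := le_abs_self K
            have h4 : 0 ≤ Real.log (x : ℝ) ^ 2 := sq_nonneg _
            nlinarith
          refine h3.trans (h2.trans (le_trans ?_ hq1.le))
          exact Real.rpow_le_rpow_of_exponent_le (by linarith) (by linarith)
        have h3 := (hx q).1 hKq (by exact_mod_cast hqx)
        have h4 := (abs_le.1 h3).1
        have h5 : Real.log (q : ℝ) ≤ (1 - ε) * Real.log x := by
          rw [← Real.log_rpow hxp]
          exact Real.log_le_log hq0 hq2.le
        have h6 : x * Real.log (q : ℝ) ≤ x * ((1 - ε) * Real.log x) := mul_le_mul_of_nonneg_left h5 hxp.le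
        rw [G_eq]
        nlinarith
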